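import Mathlib
import Pool.Agent.Helper539.AuerWalk

/-!
# An Aronszajn line, and finite sequences of its elements
-/

set_option autoImplicit false

namespace Pool.Agent.Q305.Aron

open Set Cardinal

/-! ### the countable ordinals -/

/-- the countable ordinals -/
abbrev Om : Type := (Ordinal.omega.{0} 1).ToType

theorem mk_Om : #Om = ℵ_ 1 := by
  rw [Cardinal.mk_toType, Ordinal.card_omega]

theorem not_countable_Om : ¬ (univ : Set Om).Countable := by
  intro h
  have h1 : #Om ≤ ℵ₀ := by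
    have := Cardinal.le_aleph0_iff_set_countable.2 h
    rwa [Cardinal.mk_univ] at this
  rw [mk_Om] at h1
  exact absurd h1 (not_le.2 aleph0_lt_aleph_one)

theorem countable_Iio (α : Om) : (Iio α).Countable := by
  have h : #(Iio α) < #Om := Cardinal.mk_Iio_lt α (by simp [Om])
  rw [← Cardinal.le_aleph0_iff_set_countable]
  have h1 : #Om = Order.succ ℵ₀ := by
    rw [mk_Om]; exact succ_aleph0.symm
  exact Order.lt_succ_iff.1 (h.trans_eq h1)

theorem countable_Iic (α : Om) : (Iic α).Countable := by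
  rw [← Set.Iio_insert]
  exact (countable_Iio α).insert α

theorem bounded (A : Set Om) (hA : A.Countable) : ∃ b, ∀ a ∈ A, a < b := by
  by_contra hcon
  push Not at hcon
  refine not_countable_Om ((hA.biUnion fun a _ => countable_Iic a).mono ?_)
  intro b _
  obtain ⟨a, ha, hba⟩ := hcon b
  exact mem_biUnion ha hba

theorem exists_gt' (a : Om) : ∃ b, a < b := by
  obtain ⟨b, hb⟩ := bounded {a} (countable_singleton a)
  exact ⟨b, hb a rfl⟩

/-! ### the abstract argument -/

section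
variable {X : Type} [LinearOrder X] {E : X → Om → ℕ}

/-- pigeonhole principle -/
theorem pigeon {Z : Type*} {T : Set X} (hT : ¬ T.Countable) (f : X → Z)
    (hf : (range f).Countable) : ∃ c, ¬ {t ∈ T | f t = c}.Countable := by
  by_contra hcon
  push Not at hcon
  refine hT ((hf.biUnion fun c _ => hcon c).mono fun t ht => ?_)
  exact mem_biUnion (mem_range_self t) ⟨ht, rfl⟩

theorem no_long (T : Set X) (hT : ¬ T.Countable) (hI : ∀ t ∈ T, {s ∈ T | s ≤ t}.Countable)
    (conv : ∀ δ x y z, x ≤ y → y ≤ z → (∀ ξ < δ, E x ξ = E z ξ) → ∀ ξ < δ, E x ξ = E y ξ)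
    (ctbl : ∀ δ : Om, (range fun (x : X) (ξ : Iio δ) => E x ξ.1).Countable)
    (inj : ∀ δ, {x | ¬ InjOn (E x) (Iio δ)}.Countable) : False := by
  have hc0 : ∀ δ : Om, ∃ c : Iio δ → ℕ, ¬ {t ∈ T | (fun (ξ : Iio δ) => E t ξ.1) = c}.Countable :=
    fun δ => pigeon hT (fun (x : X) (ξ : Iio δ) => E x ξ.1) (ctbl δ)
  choose c hc using hc0
  have hgt : ∀ S : Set X, ¬ S.Countable → S ⊆ T → ∀ t ∈ T, ∃ s ∈ S, t < s := by
    intro S hS hST t ht
    by_contra hcon
    push Not at hcon
    refine hS (Set.Countable.mono (fun s hs => ?_) (hI t ht))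
    exact ⟨hST hs, hcon s hs⟩
  have hne : ∀ S : Set X, ¬ S.Countable → S.Nonempty := by
    intro S hS
    by_contra h
    rw [not_nonempty_iff_eq_empty] at h
    exact hS (by rw [h]; exact countable_empty)
  have hco : ∀ δ δ' (h : δ ≤ δ') (ξ : Om) (hξ : ξ < δ),
      c δ ⟨ξ, hξ⟩ = c δ' ⟨ξ, lt_of_lt_of_le hξ h⟩ := by
    intro δ δ' h ξ hξ
    obtain ⟨x, hxT, hx⟩ := hne _ (hc δ)
    obtain ⟨y, ⟨hyT, hy⟩, hxy⟩ := hgt _ (hc δ') (fun _ h => h.1) x hxT
    obtain ⟨z, ⟨hzT, hz⟩, hyz⟩ := hgt _ (hc δ) (fun _ h => h.1) y hyT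
    have h1 : E x ξ = c δ ⟨ξ, hξ⟩ := congrFun hx ⟨ξ, hξ⟩
    have h2 : E y ξ = c δ' ⟨ξ, lt_of_lt_of_le hξ h⟩ := congrFun hy ⟨ξ, lt_of_lt_of_le hξ h⟩
    have h3 : E x ξ = E y ξ := by
      refine conv δ x y z hxy.le hyz.le (fun ζ hζ => ?_) ξ hξ
      have h4 : E x ζ = c δ ⟨ζ, hζ⟩ := congrFun hx ⟨ζ, hζ⟩
      have h5 : E z ζ = c δ ⟨ζ, hζ⟩ := congrFun hz ⟨ζ, hζ⟩
      rw [h4, h5]
    rw [← h1, ← h2, h3]
  choose g hg using exists_gt'
  let b : Om → ℕ := fun ξ => c (g ξ) ⟨ξ, hg ξ⟩
  have hb : Function.Injective b := by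
    intro ξ ξ' hξ
    obtain ⟨δ, hδ⟩ : ∃ δ, g ξ ≤ δ ∧ g ξ' ≤ δ := ⟨max (g ξ) (g ξ'), le_max_left _ _, le_max_right _ _⟩
    have h1 : ¬ ({t ∈ T | (fun (ξ : Iio δ) => E t ξ.1) = c δ} \
        {x | ¬ InjOn (E x) (Iio δ)}).Countable := by
      intro h
      refine hc δ ((h.union (inj δ)).mono fun t ht => ?_)
      by_cases h2 : t ∈ {x | ¬ InjOn (E x) (Iio δ)}
      · exact Or.inr h2
      · exact Or.inl ⟨ht, h2⟩
    obtain ⟨t, ⟨-, ht⟩, hinj⟩ := hne _ h1
    have hinj' : InjOn (E t) (Iio δ) := by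
      by_contra h
      exact hinj h
    have hξ1 : ξ < δ := (hg ξ).trans_le hδ.1
    have hξ2 : ξ' < δ := (hg ξ').trans_le hδ.2
    have h3 : b ξ = E t ξ := by
      show c (g ξ) ⟨ξ, hg ξ⟩ = _
      rw [hco (g ξ) δ hδ.1 ξ (hg ξ), ← congrFun ht ⟨ξ, hξ1⟩]
    have h4 : b ξ' = E t ξ' := by
      show c (g ξ') ⟨ξ', hg ξ'⟩ = _
      rw [hco (g ξ') δ hδ.2 ξ' (hg ξ'), ← congrFun ht ⟨ξ', hξ2⟩]
    exact hinj' hξ1 hξ2 (h3.symm.trans (hξ.trans h4))
  have : Countable Om := hb.countable
  exact not_countable_Om (countable_univ)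

theorem no_real (T : Set X) (hT : ¬ T.Countable) (r : T → ℝ) (hr : StrictMono r)
    (conv : ∀ δ x y z, x ≤ y → y ≤ z → (∀ ξ < δ, E x ξ = E z ξ) → ∀ ξ < δ, E x ξ = E y ξ)
    (ctbl : ∀ δ : Om, (range fun (x : X) (ξ : Iio δ) => E x ξ.1).Countable)
    (lev : X → Om) (hlev : ∀ δ, {x | lev x < δ}.Countable) (h0 : ∀ x, E x (lev x) = 0)
    (h1 : ∀ x ξ, ξ < lev x → E x ξ ≠ 0) : False := by
  classical
  obtain ⟨x0, hx0⟩ : T.Nonempty := by
    by_contra h
    rw [not_nonempty_iff_eq_empty] at h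
    exact hT (by rw [h]; exact countable_empty)
  let d : ℚ × ℚ → T := fun q => if h : ∃ z : T, (q.1 : ℝ) < r z ∧ r z < q.2 then h.choose
    else ⟨x0, hx0⟩
  have hd : ∀ q : ℚ × ℚ, (∃ z : T, (q.1 : ℝ) < r z ∧ r z < q.2) →
      (q.1 : ℝ) < r (d q) ∧ r (d q) < q.2 := by
    intro q h
    have : d q = h.choose := dif_pos h
    rw [this]
    exact h.choose_spec
  obtain ⟨δ, hδ⟩ := bounded (range fun q => lev (d q).1) (countable_range _)
  have hδ' : ∀ q, lev (d q).1 < δ := fun q => hδ _ ⟨q, rfl⟩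
  have h2 : ¬ {x | x ∈ T ∧ δ ≤ lev x}.Countable := by
    intro h
    apply hT
    refine (h.union (hlev δ)).mono fun x hx => ?_
    rcases le_or_gt δ (lev x) with h3 | h3
    · exact Or.inl ⟨hx, h3⟩
    · exact Or.inr h3
  obtain ⟨c, hc⟩ := pigeon h2 (fun (x : X) (ξ : Iio δ) => E x ξ.1) (ctbl δ)
  set A := {t ∈ {x | x ∈ T ∧ δ ≤ lev x} | (fun (ξ : Iio δ) => E t ξ.1) = c} with hA
  have hag : ∀ x ∈ A, ∀ z ∈ A, ∀ ξ < δ, E x ξ = E z ξ := by
    intro x hx z hz ξ hξ
    have e1 := congrFun hx.2 ⟨ξ, hξ⟩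
    have e2 := congrFun hz.2 ⟨ξ, hξ⟩
    exact e1.trans e2.symm
  have hno : ∀ x ∈ A, ∀ z ∈ A, ∀ y ∈ A, x < z → z < y → False := by
    intro x hx z hz y hy hxz hzy
    have hx' := hx.1.1
    have hz' := hz.1.1
    have hy' := hy.1.1
    have h2 : r ⟨x, hx'⟩ < r ⟨z, hz'⟩ := hr hxz
    have h3 : r ⟨z, hz'⟩ < r ⟨y, hy'⟩ := hr hzy
    obtain ⟨q1, h4, h5⟩ := exists_rat_btwn h2
    obtain ⟨q2, h6, h7⟩ := exists_rat_btwn h3
    obtain ⟨h8, h9⟩ := hd (q1, q2) ⟨⟨z, hz'⟩, h5, h6⟩
    have h10 : (⟨x, hx'⟩ : T) < d (q1, q2) := hr.lt_iff_lt.1 (h4.trans h8)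
    have h11 : d (q1, q2) < ⟨y, hy'⟩ := hr.lt_iff_lt.1 (h9.trans h7)
    have h12 := conv δ x (d (q1, q2)).1 y (le_of_lt h10) (le_of_lt h11)
      (hag x hx y hy) _ (hδ' (q1, q2))
    rw [h0] at h12
    exact h1 x _ ((hδ' (q1, q2)).trans_le hx.1.2) h12
  apply hc
  obtain ⟨a, ha⟩ : A.Nonempty := by
    by_contra h
    rw [not_nonempty_iff_eq_empty] at h
    exact hc (by rw [h]; exact countable_empty)
  have h2 : (A ∩ Ioi a).Subsingleton := by
    intro b hb c hc
    by_contra hne
    rcases lt_or_gt_of_ne hne with h | h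
    · exact hno a ha b hb.1 c hc.1 hb.2 h
    · exact hno a ha c hc.1 b hb.1 hc.2 h
  have h3 : (A ∩ Iio a).Subsingleton := by
    intro b hb c hc
    by_contra hne
    rcases lt_or_gt_of_ne hne with h | h
    · exact hno b hb.1 c hc.1 a ha h hc.2
    · exact hno c hc.1 b hb.1 a ha h hb.2
  refine ((h2.countable.union h3.countable).union (countable_singleton a)).mono ?_
  intro b hb
  rcases lt_trichotomy a b with h | h | h
  · exact Or.inl (Or.inl ⟨hb, h⟩)
  · exact Or.inr h.symm
  · exact Or.inl (Or.inr ⟨hb, h⟩)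

end

/-- The linear order `X` is an Aronszajn line in the following strong sense: it is uncountable, and
all subsets which can be mapped to `ω₁`, its reverse or the reals by a strictly increasing map are
countable. -/
def Strong (X : Type) [LinearOrder X] : Prop :=
  ¬ (univ : Set X).Countable ∧
    (∀ T : Set X, ∀ r : T → Om, StrictMono r → T.Countable) ∧
    (∀ T : Set X, ∀ r : T → Omᵒᵈ, StrictMono r → T.Countable) ∧
    (∀ T : Set X, ∀ r : T → ℝ, StrictMono r → T.Countable)

/-- The linear order `X` is an Aronszajn line: it is uncountable, it has no suborder of type `ω₁` or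
`ω₁*`, and no uncountable suborder which is isomorphic to a set of reals. -/
def IsAronszajnLine (X : Type) [LinearOrder X] : Prop :=
  Uncountable X ∧ (¬ ∃ f : Om → X, StrictMono f) ∧ (¬ ∃ f : Om → X, StrictAnti f) ∧
    ∀ S : Set X, (∃ f : S → ℝ, StrictMono f) → S.Countable

theorem Strong.isAronszajnLine {X : Type} [LinearOrder X] (h : Strong X) : IsAronszajnLine X := by
  obtain ⟨h1, h2, h3, h4⟩ := h
  refine ⟨?_, ?_, ?_, fun S ⟨f, hf⟩ => h4 S f hf⟩
  · by_contra hcon
    rw [not_uncountable_iff] at hcon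
    exact h1 countable_univ
  · rintro ⟨f, hf⟩
    have hinj := hf.injective
    have h5 : (range f).Countable := by
      refine h2 (range f) (fun x => (Equiv.ofInjective f hinj).symm x) ?_
      rintro ⟨_, a, rfl⟩ ⟨_, b, rfl⟩ hab
      have hab' : f a < f b := hab
      show (Equiv.ofInjective f hinj).symm ⟨f a, _⟩ < (Equiv.ofInjective f hinj).symm ⟨f b, _⟩
      rw [Equiv.ofInjective_symm_apply, Equiv.ofInjective_symm_apply]
      exact hf.lt_iff_lt.1 hab'
    have h6 : (univ : Set Om).Countable := by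
      have := h5.preimage hinj
      rwa [preimage_range] at this
    exact not_countable_Om h6
  · rintro ⟨f, hf⟩
    have hinj := hf.injective
    have h5 : (range f).Countable := by
      refine h3 (range f) (fun x => OrderDual.toDual ((Equiv.ofInjective f hinj).symm x)) ?_
      rintro ⟨_, a, rfl⟩ ⟨_, b, rfl⟩ hab
      have hab' : f a < f b := hab
      show OrderDual.toDual ((Equiv.ofInjective f hinj).symm ⟨f a, _⟩) <
        OrderDual.toDual ((Equiv.ofInjective f hinj).symm ⟨f b, _⟩)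
      rw [Equiv.ofInjective_symm_apply, Equiv.ofInjective_symm_apply]
      exact OrderDual.toDual_lt_toDual.2 (hf.lt_iff_gt.1 hab')
    have h6 : (univ : Set Om).Countable := by
      have := h5.preimage hinj
      rwa [preimage_range] at this
    exact not_countable_Om h6

/-! ### the line -/

/-- there is an Aronszajn line -/
theorem exists_line : ∃ (X : Type) (_ : LinearOrder X), Strong X := by
  classical
  obtain ⟨e, he1, he2⟩ := Pool.Agent.Helper539.Auer.exists_coherent_injections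
    (W := Om) countable_Iio
  let F : Om → Om → ℕ := fun a ξ => if ξ < a then e a ξ + 1 else 0
  have hF0 : ∀ a, F a a = 0 := fun a => if_neg (lt_irrefl a)
  have hF1 : ∀ a ξ, ξ < a → F a ξ = e a ξ + 1 := fun a ξ h => if_pos h
  have hFinj : Function.Injective F := by
    intro a b hab
    by_contra hne
    rcases lt_or_gt_of_ne hne with h | h
    · have h1 : F b a = 0 := by rw [← hab]; exact hF0 a
      rw [hF1 b a h] at h1
      omega
    · have h1 : F a b = 0 := by rw [hab]; exact hF0 b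
      rw [hF1 a b h] at h1
      omega
  let X : Type := {x : Lex (Om → ℕ) // ∃ a, x = toLex (F a)}
  let mk : Om → X := fun a => ⟨toLex (F a), a, rfl⟩
  have hmk : ∀ x : X, ∃ a, x = mk a := by
    rintro ⟨_, a, rfl⟩
    exact ⟨a, rfl⟩
  choose lev hlev using hmk
  have hmkinj : Function.Injective mk := fun a b h => hFinj (Subtype.ext_iff.1 h)
  have hlevinj : Function.Injective lev := fun x y h => by rw [hlev x, hlev y, h]
  let E : X → Om → ℕ := fun x => F (lev x)
  have hE : ∀ x : X, x.1 = toLex (E x) := by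
    intro x
    have h1 : x.1 = (mk (lev x)).1 := by rw [← hlev x]
    exact h1
  have hlt : ∀ x y : X, x < y ↔ ∃ i, (∀ j < i, E x j = E y j) ∧ E x i < E y i := by
    intro x y
    have h1 : x < y ↔ x.1 < y.1 := Iff.rfl
    rw [h1, hE x, hE y]
    exact Iff.rfl
  have conv : ∀ δ, ∀ x y z : X, x ≤ y → y ≤ z → (∀ ξ < δ, E x ξ = E z ξ) →
      ∀ ξ < δ, E x ξ = E y ξ := by
    intro δ x y z hxy hyz hxz ξ hξ
    by_contra hne
    obtain ⟨i, hi, hmin⟩ : ∃ i, E x i ≠ E y i ∧ ∀ j < i, E x j = E y j := by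
      obtain ⟨i, hi, hmin⟩ := WellFounded.has_min (wellFounded_lt (α := Om))
        {i | E x i ≠ E y i} ⟨ξ, hne⟩
      refine ⟨i, hi, fun j hj => ?_⟩
      by_contra h
      exact hmin j h hj
    have hiξ : i ≤ ξ := by
      by_contra h
      exact hne (hmin ξ (not_le.1 h))
    have hiδ : i < δ := hiξ.trans_lt hξ
    rcases lt_or_gt_of_ne hi with h | h
    · have : z < y := (hlt z y).2 ⟨i, fun j hj => by rw [← hxz j (hj.trans hiδ)]; exact hmin j hj,
        by rw [← hxz i hiδ]; exact h⟩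
      exact absurd this (not_lt.2 hyz)
    · have : y < x := (hlt y x).2 ⟨i, fun j hj => (hmin j hj).symm, h⟩
      exact absurd this (not_lt.2 hxy)
  have ctbl : ∀ δ : Om, (range fun (x : X) (ξ : Iio δ) => E x ξ.1).Countable := by
    intro δ
    have h1 := (he2 δ).image (fun (g : Iio δ → ℕ) (ξ : Iio δ) => g ξ + 1)
    have h2 : ((fun (a : Om) (ξ : Iio δ) => F a ξ.1) '' Iio δ).Countable :=
      (countable_Iio δ).image _
    refine (h1.union h2).mono ?_
    rintro _ ⟨x, rfl⟩
    rcases le_or_gt δ (lev x) with h | h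
    · left
      refine ⟨fun ξ => e (lev x) ξ.1, ⟨⟨lev x, h⟩, rfl⟩, ?_⟩
      funext ξ
      exact (hF1 (lev x) ξ.1 (lt_of_lt_of_le ξ.2 h)).symm
    · right
      exact ⟨lev x, h, rfl⟩
  have hlevc : ∀ δ, {x : X | lev x < δ}.Countable := by
    intro δ
    exact (countable_Iio δ).preimage hlevinj
  have inj : ∀ δ, {x : X | ¬ InjOn (E x) (Iio δ)}.Countable := by
    intro δ
    refine (hlevc δ).mono fun x hx => ?_
    by_contra h
    have h' : δ ≤ lev x := not_lt.1 h
    apply hx
    intro ξ hξ ξ' hξ' hh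
    have e1 := hF1 (lev x) ξ (lt_of_lt_of_le hξ h')
    have e2 := hF1 (lev x) ξ' (lt_of_lt_of_le hξ' h')
    have e3 : e (lev x) ξ + 1 = e (lev x) ξ' + 1 := e1.symm.trans (hh.trans e2)
    exact he1 (lev x) (lt_of_lt_of_le hξ h') (lt_of_lt_of_le hξ' h') (Nat.succ.inj e3)
  refine ⟨X, inferInstance, ?_, ?_, ?_, ?_⟩
  · intro h
    have := h.preimage hmkinj
    rw [preimage_univ] at this
    exact not_countable_Om this
  · intro T r hr
    by_contra hT
    refine no_long (E := E) T hT (fun t ht => ?_) conv ctbl inj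
    have h1 : ((fun s : T => r s) ⁻¹' (Iic (r ⟨t, ht⟩))).Countable :=
      (countable_Iic _).preimage hr.injective
    refine (h1.image Subtype.val).mono ?_
    rintro s ⟨hs, hst⟩
    exact ⟨⟨s, hs⟩, hr.monotone hst, rfl⟩
  · intro T r hr
    by_contra hT
    refine no_long (X := Xᵒᵈ) (E := fun x => E (OrderDual.ofDual x)) (OrderDual.ofDual ⁻¹' T)
      (fun h => hT ?_) (fun t ht => ?_) ?_ ?_ ?_
    · have h1 := h.image (OrderDual.ofDual : Xᵒᵈ → X)
      rwa [image_preimage_eq _ OrderDual.ofDual.surjective] at h1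
    · have h1 : ((fun s : T => OrderDual.ofDual (r s)) ⁻¹'
          (Iic (OrderDual.ofDual (r ⟨OrderDual.ofDual t, ht⟩)))).Countable :=
        (countable_Iic _).preimage (OrderDual.ofDual.injective.comp hr.injective)
      refine (h1.image (fun s : T => OrderDual.toDual s.1)).mono ?_
      rintro s ⟨hs, hst⟩
      refine ⟨⟨OrderDual.ofDual s, hs⟩, ?_, rfl⟩
      have h2 : OrderDual.ofDual t ≤ OrderDual.ofDual s := hst
      exact hr.monotone (show (⟨OrderDual.ofDual t, ht⟩ : T) ≤ ⟨OrderDual.ofDual s, hs⟩ from h2)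
    · intro δ x y z hxy hyz hxz ξ hξ
      have h1 := conv δ (OrderDual.ofDual z) (OrderDual.ofDual y) (OrderDual.ofDual x) hyz hxy
        (fun ξ hξ => (hxz ξ hξ).symm) ξ hξ
      exact (hxz ξ hξ).trans h1
    · intro δ
      exact ctbl δ
    · intro δ
      exact inj δ
  · intro T r hr
    by_contra hT
    exact no_real (E := E) T hT r hr conv ctbl lev hlevc (fun x => hF0 _)
      (fun x ξ h => by
        show F (lev x) ξ ≠ 0
        rw [hF1 _ _ h]
        omega)

/-! ### finite sequences -/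

section
variable {C : Type} [LinearOrder C]

/-- closure under finite sequences -/
theorem countable_lists {R : Type*} [Preorder R]
    (h : ∀ T : Set C, ∀ r : T → R, StrictMono r → T.Countable) (T : Set (List C)) (r : T → R)
    (hr : StrictMono r) : T.Countable := by
  classical
  have key : ∀ (k : ℕ) (T : Set (List C)) (r : T → R), StrictMono r → (∀ x ∈ T, x.length = k) →
      T.Countable := by
    intro k
    induction k with
    | zero =>
      intro T r _ hT
      refine (countable_singleton []).mono fun x hx => ?_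
      exact List.eq_nil_of_length_eq_zero (hT x hx)
    | succ k ih =>
      intro T r hr hT
      let H : Set C := {c | ∃ t, c :: t ∈ T}
      have hH : H.Countable := by
        choose s hs using fun c : H => c.2
        refine h H (fun c => r ⟨c.1 :: s c, hs c⟩) fun c c' hcc => hr ?_
        exact List.Lex.rel hcc
      have h2 : T ⊆ ⋃ c ∈ H, (fun t => c :: t) '' {t | c :: t ∈ T} := by
        intro x hx
        cases x with
        | nil => simpa using hT _ hx
        | cons c t => exact mem_biUnion (⟨t, hx⟩ : c ∈ H) ⟨t, hx, rfl⟩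
      refine (hH.biUnion fun c _ => ?_).mono h2
      refine Countable.image ?_ _
      refine ih {t | c :: t ∈ T} (fun t => r ⟨c :: t.1, t.2⟩) (fun t t' htt => hr ?_) ?_
      · exact List.Lex.cons htt
      · intro t ht
        have := hT _ ht
        simpa using this
  have h2 : T = ⋃ k : ℕ, {x ∈ T | x.length = k} := by
    ext x
    simp
  rw [h2]
  refine countable_iUnion fun k => ?_
  refine key k _ (fun x => r ⟨x.1, x.2.1⟩) (fun x y hxy => hr hxy) (fun x hx => hx.2)

theorem strong_list (h : Strong C) : Strong (List C) := by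
  obtain ⟨h1, h2, h3, h4⟩ := h
  refine ⟨fun hc => h1 ?_, fun T r hr => countable_lists h2 T r hr,
    fun T r hr => countable_lists h3 T r hr, fun T r hr => countable_lists h4 T r hr⟩
  have := hc.preimage (f := fun c : C => [c]) (fun a b h => by simpa using h)
  rwa [preimage_univ] at this

end

end Pool.Agent.Q305.Aron
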