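import Mathlib

/-!
# Stationary subsets of a regular successor cardinal

`exists_closed` and `exists_stat` are taken from the starting file
`Pool.Agent.Results.MP_4e3057_lc.DominatingNumber`.
-/

set_option autoImplicit false

namespace Pool.Agent.Q305.St

open Cardinal Set

universe u

section
variable {W : Type u} [LinearOrder W]

/-- stationary sets -/
def Stat (T : Set W) : Prop :=
  ∀ (g : W → W) (a : W), ∃ c ∈ T, a < c ∧ ∀ b < c, g b < c

variable [WellFoundedLT W]

/-- the closure points of `g` above a given point -/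
theorem exists_closed {lam : Cardinal.{u}} (hlam : ℵ₀ ≤ lam)
    (hb : ∀ C : Set W, #C ≤ lam → ∃ b, ∀ c ∈ C, c < b)
    (h1 : ∀ w : W, #(Iio w) ≤ lam) (g : W → W) (a : W) :
    ∃ c, a < c ∧ ∀ b < c, g b < c := by
  have hG : ∀ d : W, ∃ e, d < e ∧ ∀ b ≤ d, g b < e := by
    intro d
    have h2 : #(Iic d) ≤ lam := by
      rw [← Iio_insert]
      refine (Cardinal.mk_insert_le).trans ?_
      exact (add_le_add_left (h1 d) 1).trans (Cardinal.add_one_eq hlam).le
    have hC : #(insert d (g '' Iic d) : Set W) ≤ lam := by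
      refine (Cardinal.mk_insert_le).trans ?_
      exact (add_le_add_left (Cardinal.mk_image_le.trans h2) 1).trans (Cardinal.add_one_eq hlam).le
    obtain ⟨e, he⟩ := hb _ hC
    exact ⟨e, he d (mem_insert _ _), fun b hbd => he _ (mem_insert_of_mem _ ⟨b, hbd, rfl⟩)⟩
  choose G hG1 hG2 using hG
  let s : ℕ → W := fun n => G^[n] a
  have hs : ∀ n, s (n + 1) = G (s n) := fun n => Function.iterate_succ_apply' _ _ _
  have hne : {c | ∀ n, s n < c}.Nonempty := by
    obtain ⟨c, hc⟩ := hb (range s) ((countable_range _).le_aleph0.trans hlam)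
    exact ⟨c, fun n => hc _ ⟨n, rfl⟩⟩
  obtain ⟨c, hc, hmin⟩ : ∃ c ∈ {c | ∀ n, s n < c}, ∀ b < c, b ∉ {c | ∀ n, s n < c} :=
    ⟨wellFounded_lt.min _ hne, wellFounded_lt.min_mem _ hne,
      fun b hb hmem => wellFounded_lt.not_lt_min _ hmem hb⟩
  refine ⟨c, hc 0, fun b hbc => ?_⟩
  have h2 := hmin b hbc
  simp only [mem_ofPred_eq, not_forall, not_lt] at h2
  obtain ⟨n, hn⟩ := h2
  have h3 := hG2 (s n) b hn
  rw [← hs] at h3
  exact h3.trans (hc _)

/-- Ulam's theorem for successor cardinals: there are disjoint stationary sets indexed by `W`. -/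
theorem exists_stat {lam : Cardinal.{u}} (hlam : ℵ₀ ≤ lam)
    (hb : ∀ C : Set W, #C ≤ lam → ∃ b, ∀ c ∈ C, c < b)
    (h1 : ∀ w : W, #(Iio w) ≤ lam) (hW : #W = Order.succ lam) :
    ∃ T : W → Set W, (∀ i, Stat (T i)) ∧ ∀ i j, i ≠ j → Disjoint (T i) (T j) := by
  classical
  have hinj : ∀ w : W, ∃ e : Iio w → lam.out, Function.Injective e := by
    intro w
    have h2 : #(Iio w) ≤ #(lam.out) := by rw [Cardinal.mk_out]; exact h1 w
    obtain ⟨e⟩ := Cardinal.le_def _ _ |>.1 h2
    exact ⟨e, e.injective⟩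
  choose e he using hinj
  let Um : lam.out → W → Set W := fun n a => {b | ∃ h : a < b, e b ⟨a, h⟩ = n}
  have hstat : ∀ a, ∃ n, Stat (Um n a) := by
    intro a
    by_contra hcon
    push Not at hcon
    have hcon' : ∀ n, ∃ (g : W → W) (a' : W), ∀ c ∈ Um n a, a' < c → ∃ b < c, c ≤ g b := by
      intro n
      have := hcon n
      simp only [Stat, not_forall, not_exists, not_and, not_lt] at this
      obtain ⟨g, a', h⟩ := this
      refine ⟨g, a', fun c hc hac => ?_⟩
      obtain ⟨b, hb', hb''⟩ := h c hc hac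
      exact ⟨b, hb', hb''⟩
    choose g a' hg using hcon'
    have hrange : ∀ F : lam.out → W, #(range F) ≤ lam := fun F =>
      Cardinal.mk_range_le.trans (Cardinal.mk_out lam).le
    have hG : ∀ b, ∃ c, ∀ n, g n b < c := by
      intro b
      obtain ⟨c, hc⟩ := hb (range fun n => g n b) (hrange _)
      exact ⟨c, fun n => hc _ ⟨n, rfl⟩⟩
    choose G hG' using hG
    obtain ⟨a2, ha2⟩ := hb (insert a (range a')) (by
      refine (Cardinal.mk_insert_le).trans ?_
      exact (add_le_add_left (hrange a') 1).trans (Cardinal.add_one_eq hlam).le)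
    obtain ⟨c, hc1, hc2⟩ := exists_closed hlam hb h1 G a2
    have hac : a < c := (ha2 a (mem_insert _ _)).trans hc1
    obtain ⟨b, hbc, hb'⟩ := hg (e c ⟨a, hac⟩) c ⟨hac, rfl⟩
      ((ha2 _ (mem_insert_of_mem _ ⟨_, rfl⟩)).trans hc1)
    exact absurd ((hG' b _).trans (hc2 b hbc)) (not_lt.2 hb')
  choose N hN using hstat
  have hunc : ∃ n, ¬ #(N ⁻¹' {n}) ≤ lam := by
    by_contra hcon
    push Not at hcon
    have h2 : #(Set.univ : Set W) ≤ lam := by
      have h3 : (Set.univ : Set W) = ⋃ n, N ⁻¹' {n} := by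
        ext x; simp
      rw [h3]
      refine (Cardinal.mk_iUnion_le_sum_mk).trans ?_
      refine (Cardinal.sum_le_sum _ (fun _ => lam) fun n => hcon n).trans ?_
      rw [Cardinal.sum_const', Cardinal.mk_out, Cardinal.mul_eq_self hlam]
    obtain ⟨b, hb'⟩ := hb _ h2
    exact lt_irrefl _ (hb' b (mem_univ _))
  obtain ⟨n, hn⟩ := hunc
  have hcard : #W ≤ #(N ⁻¹' {n}) := by
    rw [hW]
    exact Order.succ_le_of_lt (not_le.1 hn)
  obtain ⟨j⟩ := hcard
  refine ⟨fun i => Um n (j i).1, fun i => ?_, fun i i' hne => ?_⟩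
  · have h2 : N (j i).1 = n := (j i).2
    have h3 := hN (j i).1
    rw [h2] at h3
    exact h3
  · rw [Set.disjoint_left]
    rintro b ⟨h2, h3⟩ ⟨h4, h5⟩
    have h6 := he b (h3.trans h5.symm)
    have h7 : (j i).1 = (j i').1 := congrArg (fun x : Iio b => x.1) h6
    exact hne (j.injective (Subtype.ext h7))

end

/-- the initial ordinal of a successor cardinal -/
abbrev Car (lam : Cardinal.{u}) : Type u := (Order.succ lam).ord.ToType

theorem mk_car (lam : Cardinal.{u}) : #(Car lam) = Order.succ lam := Cardinal.mk_ord_toType _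

theorem mk_Iio_car {lam : Cardinal.{u}} (w : Car lam) : #(Iio w) ≤ lam := by
  have h : #(Iio w) < #(Car lam) := Cardinal.mk_Iio_lt w (by simp [Car])
  rw [mk_car] at h
  exact Order.lt_succ_iff.1 h

theorem mk_Iic_car {lam : Cardinal.{u}} (hlam : ℵ₀ ≤ lam) (w : Car lam) : #(Iic w) ≤ lam := by
  rw [← Iio_insert]
  refine (Cardinal.mk_insert_le).trans ?_
  exact (add_le_add_left (mk_Iio_car w) 1).trans (Cardinal.add_one_eq hlam).le

theorem bounded_car {lam : Cardinal.{u}} (hlam : ℵ₀ ≤ lam) (C : Set (Car lam)) (hC : #C ≤ lam) :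
    ∃ b, ∀ c ∈ C, c < b := by
  by_contra hcon
  push Not at hcon
  have h1 : (Set.univ : Set (Car lam)) ⊆ ⋃ c : C, Iic c.1 := by
    intro b _
    obtain ⟨c, hc, hbc⟩ := hcon b
    exact mem_iUnion.2 ⟨⟨c, hc⟩, hbc⟩
  have h2 : #(Car lam) ≤ lam := by
    rw [← Cardinal.mk_univ]
    refine (Cardinal.mk_le_mk_of_subset h1).trans ?_
    refine (Cardinal.mk_iUnion_le_sum_mk).trans ?_
    refine (Cardinal.sum_le_sum _ (fun _ => lam) fun c => mk_Iic_car hlam _).trans ?_
    rw [Cardinal.sum_const']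
    exact (mul_le_mul_left hC lam).trans (Cardinal.mul_eq_self hlam).le
  rw [mk_car] at h2
  exact absurd h2 (not_le.2 (Order.lt_succ lam))

end Pool.Agent.Q305.St
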