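import Mathlib
import Pool.Agent.Q305.Stat

/-!
# Closed bounded sets avoiding a stationary set, ordered by end-extension
-/

set_option autoImplicit false

namespace Pool.Agent.Q305.MaxChain

open Cardinal Set Pool.Agent.Q305.St

universe u

section
variable {W : Type u} [LinearOrder W]

/-- `p` is a nonempty, bounded and closed subset of `W` which is disjoint from `E` -/
def Adm (E p : Set W) : Prop :=
  p.Nonempty ∧ BddAbove p ∧ (∀ S : Set W, S ⊆ p → S.Nonempty → ∀ x, IsLUB S x → x ∈ p) ∧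
    Disjoint p E

/-- `q` is an end-extension of `p` -/
def End (p q : Set W) : Prop := p ⊆ q ∧ ∀ x ∈ q, ∀ y ∈ p, x ≤ y → x ∈ p

theorem End.refl (p : Set W) : End p p := ⟨Subset.rfl, fun _ hx _ _ _ => hx⟩

theorem End.trans {p q r : Set W} (h1 : End p q) (h2 : End q r) : End p r :=
  ⟨h1.1.trans h2.1, fun x hx y hy hxy => h1.2 x (h2.2 x hx y (h1.1 hy) hxy) y hy hxy⟩

theorem End.antisymm {p q : Set W} (h1 : End p q) (h2 : End q p) : p = q :=
  Subset.antisymm h1.1 h2.1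

theorem adm_insert {E p : Set W} (hp : Adm E p) {b : W} (hb : ∀ x ∈ p, x < b) (hbE : b ∉ E) :
    Adm E (insert b p) ∧ End p (insert b p) := by
  obtain ⟨h1, h2, h3, h4⟩ := hp
  refine ⟨⟨insert_nonempty _ _, ⟨b, ?_⟩, ?_, ?_⟩, subset_insert _ _, ?_⟩
  · rintro x (rfl | hx)
    · exact le_rfl
    · exact (hb x hx).le
  · intro S hS hne x hx
    by_cases hbS : b ∈ S
    · left
      refine le_antisymm (hx.2 ?_) (hx.1 hbS)
      intro s hs
      rcases hS hs with rfl | hs'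
      · exact le_rfl
      · exact (hb s hs').le
    · right
      refine h3 S (fun s hs => ?_) hne x hx
      rcases hS hs with rfl | hs'
      · exact absurd hs hbS
      · exact hs'
  · rw [Set.disjoint_left]
    rintro x (rfl | hx)
    · exact hbE
    · exact Set.disjoint_left.1 h4 hx
  · rintro x (rfl | hx) y hy hxy
    · exact absurd (hb y hy) (not_lt.2 hxy)
    · exact hx

theorem adm_union {E : Set W} (M : Set (Set W)) (hM : ∀ p ∈ M, Adm E p)
    (hch : ∀ p ∈ M, ∀ q ∈ M, End p q ∨ End q p) {d : W}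
    (hd : IsLUB (⋃₀ M) d) (hdE : d ∉ E) :
    Adm E (insert d (⋃₀ M)) ∧ ∀ p ∈ M, End p (insert d (⋃₀ M)) := by
  have hle : ∀ x ∈ insert d (⋃₀ M), x ≤ d := by
    rintro x (rfl | hx)
    · exact le_rfl
    · exact hd.1 hx
  refine ⟨⟨insert_nonempty _ _, ⟨d, hle⟩, ?_, ?_⟩, fun p hp => ⟨?_, ?_⟩⟩
  · intro S hS hne x hx
    have hxd : x ≤ d := hx.2 fun s hs => hle s (hS hs)
    rcases hxd.lt_or_eq with hxd | rfl
    · right
      obtain ⟨m, hm, hxm⟩ : ∃ m ∈ ⋃₀ M, x < m := by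
        by_contra hcon
        push Not at hcon
        exact absurd (hd.2 hcon) (not_le.2 hxd)
      obtain ⟨c, hc, hmc⟩ := hm
      refine ⟨c, hc, (hM c hc).2.2.1 S (fun s hs => ?_) hne x hx⟩
      have hsm : s < m := (hx.1 hs).trans_lt hxm
      rcases hS hs with rfl | ⟨c', hc', hs'⟩
      · exact absurd (hd.1 ⟨c, hc, hmc⟩) (not_le.2 hsm)
      · rcases hch c hc c' hc' with h | h
        · exact h.2 s hs' m hmc hsm.le
        · exact h.1 hs'
    · exact mem_insert _ _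
  · rw [Set.disjoint_left]
    rintro x (rfl | ⟨c, hc, hx⟩)
    · exact hdE
    · exact Set.disjoint_left.1 (hM c hc).2.2.2 hx
  · exact (subset_sUnion_of_mem hp).trans (subset_insert _ _)
  · rintro x (rfl | ⟨c, hc, hx⟩) y hy hxy
    · have : y ≤ x := hd.1 ⟨p, hp, hy⟩
      rw [le_antisymm hxy this]
      exact hy
    · rcases hch p hp c hc with h | h
      · exact h.2 x hx y hy hxy
      · exact h.1 hx

variable [WellFoundedLT W]

theorem exists_isLUB {S : Set W} (hS : BddAbove S) : ∃ d, IsLUB S d :=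
  ⟨wellFounded_lt.min (upperBounds S) hS, wellFounded_lt.min_mem _ hS,
    fun _ hb => not_lt.1 fun hlt => wellFounded_lt.not_lt_min _ hb hlt⟩

/-- a chain of admissible sets has at most `lam` elements if `E` is stationary -/
theorem chain_small {lam : Cardinal.{u}} (h1 : ∀ w : W, #(Iic w) ≤ lam) {E : Set W} (hE : Stat E)
    (M : Set (Set W)) (hM : ∀ p ∈ M, Adm E p) (hch : ∀ p ∈ M, ∀ q ∈ M, End p q ∨ End q p) :
    #M ≤ lam := by
  by_contra hcon
  have hbig : ∀ a : W, ∃ c ∈ M, ∃ x ∈ c, a < x := by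
    by_contra hc
    push Not at hc
    obtain ⟨a, ha⟩ := hc
    apply hcon
    have hmax : ∀ c : M, ∃ m : Iic a, m.1 ∈ c.1 ∧ ∀ x ∈ c.1, x ≤ m.1 := by
      intro c
      obtain ⟨hne, hb, hcl, -⟩ := hM c.1 c.2
      obtain ⟨m, hm⟩ := exists_isLUB hb
      have hmc := hcl c.1 Subset.rfl hne m hm
      exact ⟨⟨m, ha c.1 c.2 m hmc⟩, hmc, fun x hx => hm.1 hx⟩
    choose m hm1 hm2 using hmax
    have hinj : Function.Injective m := by
      have : ∀ c c' : M, End c.1 c'.1 → m c = m c' → c = c' := by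
        intro c c' h e
        apply Subtype.ext
        refine Subset.antisymm h.1 fun x hx => ?_
        refine h.2 x hx (m c).1 (hm1 c) ?_
        rw [e]
        exact hm2 c' x hx
      intro c c' e
      rcases hch c.1 c.2 c'.1 c'.2 with h | h
      · exact this c c' h e
      · exact (this c' c h e.symm).symm
    exact (Cardinal.mk_le_of_injective hinj).trans (h1 a)
  choose f hf x hx hax using hbig
  obtain ⟨c₀⟩ : Nonempty W := by
    by_contra h
    apply hcon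
    have hM0 : M = ∅ := by
      rw [Set.eq_empty_iff_forall_notMem]
      intro c hc
      obtain ⟨y, -⟩ := (hM c hc).1
      exact h ⟨y⟩
    rw [hM0, Cardinal.mk_eq_zero]
    exact zero_le
  obtain ⟨e, heE, hae, he⟩ := hE x c₀
  let S : Set W := {y | y ∈ ⋃₀ M ∧ y < e}
  have hSne : S.Nonempty := ⟨x c₀, ⟨f c₀, hf c₀, hx c₀⟩, he c₀ hae⟩
  have hlub : IsLUB S e := by
    refine ⟨fun y hy => hy.2.le, fun b hb => ?_⟩
    by_contra hbe
    rw [not_le] at hbe
    exact absurd (hb ⟨⟨f b, hf b, hx b⟩, he b hbe⟩) (not_le.2 (hax b))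
  have hSc : S ⊆ f e := by
    rintro y ⟨⟨c, hc, hyc⟩, hye⟩
    rcases hch (f e) (hf e) c hc with h | h
    · exact h.2 y hyc (x e) (hx e) (hye.le.trans (hax e).le)
    · exact h.1 hyc
  have := (hM (f e) (hf e)).2.2.1 S hSc hSne e hlub
  exact Set.disjoint_left.1 (hM (f e) (hf e)).2.2.2 this heE

/-- the simultaneous construction of long chains -/
theorem exists_long {lam : Cardinal.{u}} (hlam : ℵ₀ ≤ lam)
    (hb : ∀ C : Set W, #C ≤ lam → ∃ b, ∀ c ∈ C, c < b)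
    {X J : Type u} [LinearOrder J] [WellFoundedLT J] (hJX : #J < #X) (hX : #X ≤ lam)
    (E : X → Set W) (hdisj : ∀ ξ ζ, ξ ≠ ζ → Disjoint (E ξ) (E ζ))
    (hunb : ∀ ξ, ∀ a, ∃ b, a < b ∧ b ∉ E ξ)
    (Q : X → Set (Set W)) (hQ : ∀ ξ, ∀ q ∈ Q ξ, Adm (E ξ) q)
    (hcof : ∀ ξ p, Adm (E ξ) p → ∃ q ∈ Q ξ, End p q)
    (q0 : X → Set W) (hq0 : ∀ ξ, q0 ξ ∈ Q ξ) :
    ∃ ξ, ∃ F : J → Set W, (∀ i, F i ∈ Q ξ ∧ End (q0 ξ) (F i)) ∧
      ∀ i j, j < i → End (F j) (F i) ∧ F j ≠ F i := by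
  classical
  let cond : (i : J) → ((j : J) → j < i → X → Set W) → X → Set W → Prop := fun i G ξ q =>
    q ∈ Q ξ ∧ End (q0 ξ) q ∧ (∀ j (hj : j < i), End (G j hj ξ) q) ∧
      ∃ m ∈ q, ∀ j (hj : j < i), ∀ ζ, ∀ x ∈ G j hj ζ, x < m
  let step : (i : J) → ((j : J) → j < i → X → Set W) → X → Set W := fun i G ξ =>
    if h : ∃ q, cond i G ξ q then h.choose else ∅
  let F : J → X → Set W := (wellFounded_lt (α := J)).fix step
  have hF : ∀ i, F i = step i (fun j _ => F j) := fun i => WellFounded.fix_eq _ _ _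
  let C : J → X → Set W → Prop := fun i ξ q =>
    q ∈ Q ξ ∧ End (q0 ξ) q ∧ (∀ j, j < i → End (F j ξ) q) ∧
      ∃ m ∈ q, ∀ j, j < i → ∀ ζ, ∀ x ∈ F j ζ, x < m
  have hC1 : ∀ i ξ, (∃ q, C i ξ q) → C i ξ (F i ξ) := by
    intro i ξ h
    have h' : ∃ q, cond i (fun j _ => F j) ξ q := h
    have h2 : F i ξ = h'.choose := by
      rw [hF i]
      exact dif_pos h'
    have h3 : cond i (fun j _ => F j) ξ (F i ξ) := by
      rw [h2]
      exact h'.choose_spec
    exact h3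
  have hC2 : ∀ i ξ, (¬ ∃ q, C i ξ q) → F i ξ = ∅ := by
    intro i ξ h
    have h' : ¬ ∃ q, cond i (fun j _ => F j) ξ q := h
    rw [hF i]
    exact dif_neg h'
  have hbdd : ∀ i ξ, ∃ b, ∀ x ∈ F i ξ, x ≤ b := by
    intro i ξ
    by_cases h : ∃ q, C i ξ q
    · obtain ⟨b, hb⟩ := (hQ ξ _ (hC1 i ξ h).1).2.1
      exact ⟨b, fun x hx => hb hx⟩
    · obtain ⟨b, -⟩ := hunb ξ (hQ ξ _ (hq0 ξ)).1.some
      exact ⟨b, fun x hx => by rw [hC2 i ξ h] at hx; exact absurd hx (notMem_empty x)⟩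
  choose u hu using hbdd
  have hbig : ∃ b, ∀ i ζ, ∀ x ∈ F i ζ, x < b := by
    obtain ⟨b, hb⟩ := hb (range fun z : J × X => u z.1 z.2) (by
      refine Cardinal.mk_range_le.trans ?_
      rw [Cardinal.mk_prod, lift_id, lift_id]
      exact (mul_le_mul' (hJX.le.trans hX) hX).trans (Cardinal.mul_eq_self hlam).le)
    exact ⟨b, fun i ζ x hx => (hu i ζ x hx).trans_lt (hb _ ⟨(i, ζ), rfl⟩)⟩
  obtain ⟨b, hb'⟩ := hbig
  have key : ∀ ξ i, (∃ p, Adm (E ξ) p ∧ End (q0 ξ) p ∧ ∀ j, j < i → End (F j ξ) p) →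
      ∃ q, C i ξ q := by
    rintro ξ i ⟨p, hp, h1, h2⟩
    obtain ⟨b', hb''⟩ := hp.2.1
    obtain ⟨β, hβ, hβE⟩ := hunb ξ (max b b')
    have hβ1 : ∀ x ∈ p, x < β := fun x hx => ((hb'' hx).trans (le_max_right b b')).trans_lt hβ
    obtain ⟨h3, h4⟩ := adm_insert hp hβ1 hβE
    obtain ⟨q, hq, h5⟩ := hcof ξ _ h3
    refine ⟨q, hq, h1.trans (h4.trans h5), fun j hj => (h2 j hj).trans (h4.trans h5), β,
      h5.1 (mem_insert _ _), fun j _ ζ x hx => ?_⟩
    exact ((hb' j ζ x hx).trans_le (le_max_left b b')).trans hβ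
  by_cases hall : ∃ ξ, ∀ i, ∃ q, C i ξ q
  · obtain ⟨ξ, hξ⟩ := hall
    refine ⟨ξ, fun i => F i ξ, fun i => ?_, fun i j hji => ?_⟩
    · obtain ⟨h1, h2, -⟩ := hC1 i ξ (hξ i)
      exact ⟨h1, h2⟩
    · obtain ⟨h1, h2, h3, m, hm, h4⟩ := hC1 i ξ (hξ i)
      refine ⟨h3 j hji, fun e => ?_⟩
      have h5 : m ∈ F j ξ := by
        rw [show F j ξ = F i ξ from e]
        exact hm
      exact lt_irrefl _ (h4 j hji ξ m h5)
  · exfalso
    push Not at hall
    have hfirst : ∀ ξ, ∃ i, (¬ ∃ q, C i ξ q) ∧ ∀ j < i, ∃ q, C j ξ q := by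
      intro ξ
      obtain ⟨i, hi⟩ := hall ξ
      obtain ⟨k, hk, hmin⟩ := WellFounded.has_min (wellFounded_lt (α := J))
        {i | ¬ ∃ q, C i ξ q} ⟨i, fun ⟨q, hq⟩ => hi q hq⟩
      refine ⟨k, hk, fun j hj => ?_⟩
      by_contra h
      exact hmin j h hj
    choose k hk1 hk2 using hfirst
    have hlubE : ∀ ξ d, IsLUB {x | ∃ j, j < k ξ ∧ ∃ ζ, x ∈ F j ζ} d → d ∈ E ξ := by
      intro ξ d hd
      by_contra hdE
      have hCj : ∀ j, j < k ξ → C j ξ (F j ξ) := fun j hj => hC1 j ξ (hk2 ξ j hj)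
      have hne : ∃ j0, j0 < k ξ := by
        by_contra h
        push Not at h
        refine hk1 ξ (key ξ (k ξ) ⟨q0 ξ, hQ ξ _ (hq0 ξ), End.refl _, fun j hj => ?_⟩)
        exact absurd hj (not_lt.2 (h j))
      have hlim : ∀ j, j < k ξ → ∃ j', j < j' ∧ j' < k ξ := by
        intro j hj
        by_contra h
        push Not at h
        refine hk1 ξ (key ξ (k ξ) ⟨F j ξ, hQ ξ _ (hCj j hj).1, (hCj j hj).2.1, fun j' hj' => ?_⟩)
        have h2 : j' ≤ j := by
          by_contra h3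
          exact absurd hj' (not_lt.2 (h j' (not_le.1 h3)))
        rcases h2.lt_or_eq with h3 | rfl
        · exact (hCj j hj).2.2.1 j' h3
        · exact End.refl _
      let M : Set (Set W) := {p | ∃ j, j < k ξ ∧ p = F j ξ}
      have hM : ∀ p ∈ M, Adm (E ξ) p := by
        rintro p ⟨j, hj, rfl⟩
        exact hQ ξ _ (hCj j hj).1
      have hch : ∀ p ∈ M, ∀ q ∈ M, End p q ∨ End q p := by
        rintro p ⟨j, hj, rfl⟩ q ⟨j', hj', rfl⟩
        rcases lt_trichotomy j j' with h | rfl | h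
        · exact Or.inl ((hCj j' hj').2.2.1 j h)
        · exact Or.inl (End.refl _)
        · exact Or.inr ((hCj j hj).2.2.1 j' h)
      have hd' : IsLUB (⋃₀ M) d := by
        constructor
        · rintro x ⟨p, ⟨j, hj, rfl⟩, hx⟩
          exact hd.1 ⟨j, hj, ξ, hx⟩
        · intro e he
          refine hd.2 ?_
          rintro x ⟨j, hj, ζ, hx⟩
          obtain ⟨j', hjj', hj'⟩ := hlim j hj
          obtain ⟨-, -, -, m, hm, h4⟩ := hCj j' hj'
          exact (h4 j hjj' ζ x hx).le.trans (he ⟨F j' ξ, ⟨j', hj', rfl⟩, hm⟩)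
      obtain ⟨h1, h2⟩ := adm_union M hM hch hd' hdE
      obtain ⟨j0, hj0⟩ := hne
      refine hk1 ξ (key ξ (k ξ) ⟨_, h1, ?_, fun j hj => h2 _ ⟨j, hj, rfl⟩⟩)
      exact (hCj j0 hj0).2.1.trans (h2 _ ⟨j0, hj0, rfl⟩)
    have hlubex : ∀ i, ∃ d, IsLUB {x | ∃ j, j < i ∧ ∃ ζ, x ∈ F j ζ} d := by
      intro i
      apply exists_isLUB
      refine ⟨b, ?_⟩
      rintro x ⟨j, _, ζ, hx⟩
      exact (hb' j ζ x hx).le
    have hkinj : Function.Injective k := by
      intro ξ ζ e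
      by_contra hne
      obtain ⟨d, hd⟩ := hlubex (k ξ)
      have h1 := hlubE ξ d hd
      rw [e] at hd
      have h2 := hlubE ζ d hd
      exact Set.disjoint_left.1 (hdisj ξ ζ hne) h1 h2
    exact absurd (Cardinal.mk_le_of_injective hkinj) (not_le.2 hJX)

end

end Pool.Agent.Q305.MaxChain
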