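import Mathlib

/-!
# Algebras of size `κ` without uniform `κ`-complete ultrafilters, `κ` not a limit of inaccessibles
-/

set_option autoImplicit false

namespace Pool.Agent.Q305.Welch

open Cardinal Set

universe u

section general
variable {K : Type u}

/-- `A` is a `κ`-complete subalgebra of the power set of `K`, where `κ` is the cardinality of `K`:
it is closed under complements and under unions of fewer than `κ` members. -/
structure IsCompleteAlgebra (A : Set (Set K)) : Prop where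
  compl_mem : ∀ s ∈ A, sᶜ ∈ A
  sUnion_mem : ∀ S : Set (Set K), S ⊆ A → #S < #K → ⋃₀ S ∈ A

/-- `U` is a uniform `κ`-complete ultrafilter on the algebra `A`, where `κ` is the cardinality of
`K`: all members of `U` have cardinality `κ`, and `U` is closed under intersections of fewer than
`κ` members. -/
structure IsUniformUltrafilter (A U : Set (Set K)) : Prop where
  subset : U ⊆ A
  superset : ∀ s ∈ U, ∀ t ∈ A, s ⊆ t → t ∈ U
  sInter_mem : ∀ S : Set (Set K), S ⊆ U → #S < #K → ⋂₀ S ∈ U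
  mem_or_compl_mem : ∀ s ∈ A, s ∈ U ∨ sᶜ ∈ U
  card_eq : ∀ s ∈ U, #s = #K

namespace IsUniformUltrafilter
variable {A U : Set (Set K)}

theorem inter_mem (hK : 2 < #K) (hU : IsUniformUltrafilter A U) {s t : Set K} (hs : s ∈ U)
    (ht : t ∈ U) : s ∩ t ∈ U := by
  have h := hU.sInter_mem {s, t} (by
    rintro x (rfl | rfl)
    · exact hs
    · exact ht) ((Cardinal.mk_insert_le.trans (by
      rw [Cardinal.mk_singleton]
      norm_num)).trans_lt hK)
  rwa [sInter_pair] at h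

theorem empty_notMem (hK : 2 < #K) (hU : IsUniformUltrafilter A U) : ∅ ∉ U := by
  intro h
  have h1 := hU.card_eq _ h
  rw [Cardinal.mk_eq_zero] at h1
  rw [← h1] at hK
  exact absurd hK (by norm_num)

theorem iInter_mem (hU : IsUniformUltrafilter A U) {ι : Type u} (hι : #ι < #K)
    (s : ι → Set K) (hs : ∀ i, s i ∈ U) : ⋂ i, s i ∈ U := by
  have h := hU.sInter_mem (range s) (by
    rintro x ⟨i, rfl⟩
    exact hs i) (Cardinal.mk_range_le.trans_lt hι)
  rwa [sInter_range] at h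

theorem exists_mem (hK : 2 < #K) (hU : IsUniformUltrafilter A U)
    {ι : Type u} (hι : #ι < #K)
    (s : ι → Set K) (hs : ∀ i, s i ∈ A) {t : Set K} (ht : t ∈ U) (h : t ⊆ ⋃ i, s i) :
    ∃ i, s i ∈ U := by
  by_contra hcon
  push Not at hcon
  have h1 : ∀ i, (s i)ᶜ ∈ U := fun i => (hU.mem_or_compl_mem _ (hs i)).resolve_left (hcon i)
  have h2 := hU.inter_mem hK (hU.iInter_mem hι _ h1) ht
  have h3 : (⋂ i, (s i)ᶜ) ∩ t = ∅ := by
    rw [← compl_iUnion, eq_empty_iff_forall_notMem]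
    rintro x ⟨hx1, hx2⟩
    exact hx1 (h hx2)
  rw [h3] at h2
  exact hU.empty_notMem hK h2

end IsUniformUltrafilter
end general

section
variable {κ : Cardinal.{u}}

theorem mk_K : #κ.ord.ToType = κ := Cardinal.mk_ord_toType κ

theorem mk_Iio_lt (a : κ.ord.ToType) : #(Iio a) < κ := by
  have h : #(Iio a) < #κ.ord.ToType := Cardinal.mk_Iio_lt a (by simp)
  rwa [mk_K] at h

/-- initial segments have all sizes -/
theorem exists_Iio {c : Cardinal.{u}} (hc : c < κ) : ∃ a : κ.ord.ToType, #(Iio a) = c := by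
  have h1 : c.ord < κ.ord := Cardinal.ord_lt_ord.2 hc
  have h2 : c.ord < Ordinal.type (α := κ.ord.ToType) (· < ·) := by
    rwa [Ordinal.type_toType]
  refine ⟨Ordinal.enum (α := κ.ord.ToType) (· < ·) ⟨c.ord, h2⟩, ?_⟩
  have h3 := Ordinal.card_typein (r := (· < · : κ.ord.ToType → κ.ord.ToType → Prop))
    (Ordinal.enum (α := κ.ord.ToType) (· < ·) ⟨c.ord, h2⟩)
  rw [Ordinal.typein_enum, Cardinal.card_ord] at h3
  exact h3.symm

theorem mk_Iic_lt (hκ : ℵ₀ ≤ κ) (a : κ.ord.ToType) : #(Iic a) < κ := by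
  rw [← Iio_insert]
  exact Cardinal.mk_insert_le.trans_lt
    (Cardinal.add_lt_of_lt hκ (mk_Iio_lt _) ((Cardinal.one_lt_aleph0).trans_le hκ))

theorem bounded (hκ : κ.IsRegular) (S : Set κ.ord.ToType) (hS : #S < κ) : ∃ b, ∀ x ∈ S, x < b := by
  by_contra hcon
  push Not at hcon
  have h2 : (univ : Set κ.ord.ToType) = ⋃ s : S, Iic s.1 := by
    refine (eq_univ_of_forall fun a => ?_).symm
    obtain ⟨s, hs, has⟩ := hcon a
    exact mem_iUnion.2 ⟨⟨s, hs⟩, has⟩
  have h3 : #(⋃ s : S, Iic s.1 : Set κ.ord.ToType) < κ := by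
    rw [Cardinal.card_iUnion_lt_iff_forall_of_isRegular hκ hS]
    exact fun s => mk_Iic_lt hκ.aleph0_le _
  rw [← h2, Cardinal.mk_univ, mk_K] at h3
  exact lt_irrefl _ h3

/-- an algebra of size `κ` containing given `κ` many sets -/
theorem exists_algebra (hκ : κ.IsInaccessible) (G : κ.ord.ToType → Set κ.ord.ToType) :
    ∃ A : Set (Set κ.ord.ToType), IsCompleteAlgebra A ∧ (∀ i, G i ∈ A) ∧ #A ≤ κ := by
  classical
  have hreg := hκ.isRegular
  let tr : (a x : κ.ord.ToType) → Set (Iio a) := fun a x => {i | x ∈ G i.1}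
  let ev : (Σ a : κ.ord.ToType, Set (Set (Iio a))) → Set κ.ord.ToType := fun p =>
    {x | tr p.1 x ∈ p.2}
  refine ⟨range ev, ⟨?_, ?_⟩, ?_, ?_⟩
  · rintro _ ⟨⟨a, T⟩, rfl⟩
    exact ⟨⟨a, Tᶜ⟩, rfl⟩
  · intro S hS hcard
    rw [mk_K] at hcard
    choose p hp using fun s : S => hS s.2
    obtain ⟨b, hb⟩ := bounded hreg (range fun s : S => (p s).1)
      (Cardinal.mk_range_le.trans_lt hcard)
    have hb' : ∀ s : S, (p s).1 < b := fun s => hb _ ⟨s, rfl⟩
    let T : Set (Set (Iio b)) :=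
      {t | ∃ s : S, {i : Iio (p s).1 | (⟨i.1, lt_trans i.2 (hb' s)⟩ : Iio b) ∈ t} ∈ (p s).2}
    refine ⟨⟨b, T⟩, ?_⟩
    ext x
    constructor
    · rintro ⟨s, hs⟩
      refine ⟨s.1, s.2, ?_⟩
      rw [← hp s]
      exact hs
    · rintro ⟨s, hs, hx⟩
      refine ⟨⟨s, hs⟩, ?_⟩
      have h1 : ev (p ⟨s, hs⟩) = s := hp ⟨s, hs⟩
      have h2 : x ∈ ev (p ⟨s, hs⟩) := by rw [h1]; exact hx
      exact h2
  · intro i
    obtain ⟨b, hb⟩ := bounded hreg {i} (by
      rw [Cardinal.mk_singleton]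
      exact Cardinal.one_lt_aleph0.trans_le hreg.aleph0_le)
    have hib : i < b := hb i rfl
    refine ⟨⟨b, {t | (⟨i, hib⟩ : Iio b) ∈ t}⟩, rfl⟩
  · refine Cardinal.mk_range_le.trans ?_
    rw [Cardinal.mk_sigma]
    refine (Cardinal.sum_le_sum _ (fun _ => κ) fun a => ?_).trans ?_
    · rw [Cardinal.mk_set, Cardinal.mk_set]
      exact (hκ.isStrongPrelimit (hκ.isStrongPrelimit (mk_Iio_lt a))).le
    · rw [Cardinal.sum_const', mk_K]
      exact (Cardinal.mul_eq_self hreg.aleph0_le).le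

/-- what it means for `a` not to be inaccessible -/
theorem witness (hκ : κ.IsInaccessible) {δ : Cardinal.{u}} (hδ : δ < κ)
    (hδ' : ∀ c : Cardinal.{u}, δ < c → c < κ → ¬ c.IsInaccessible) :
    ∃ d : κ.ord.ToType, ∀ a, d ≤ a → ∃ l < a, (∃ c : κ.ord.ToType → κ.ord.ToType,
      (∀ i < l, c i < a) ∧ ∀ b < a, ∃ i < l, b ≤ c i) ∨ #(Iio a) ≤ 2 ^ #(Iio l) := by
  classical
  obtain ⟨d, hd⟩ := exists_Iio (κ := κ) (c := Order.succ (max δ ℵ₀))
    (hκ.isSuccLimit.succ_lt (max_lt hδ hκ.aleph0_lt))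
  refine ⟨d, fun a hda => ?_⟩
  by_contra hcon
  push Not at hcon
  have hca : max δ ℵ₀ < #(Iio a) := by
    refine (Order.lt_succ _).trans_le ?_
    rw [← hd]
    exact Cardinal.mk_le_mk_of_subset (Iio_subset_Iio hda)
  have hlt : ∀ l : κ.ord.ToType, #(Iio l) < #(Iio a) → l < a := by
    intro l h
    by_contra h2
    exact absurd (Cardinal.mk_le_mk_of_subset (Iio_subset_Iio (not_lt.1 h2))) (not_le.2 h)
  have h1 : ∀ l < a, ∀ f : Iio l → Iio a, ∃ b : Iio a, ∀ i, f i < b := by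
    intro l hl f
    obtain ⟨b, hb, hb2⟩ := (hcon l hl).1 (fun i => if h : i < l then f ⟨i, h⟩ else l) (by
      intro i hi
      rw [dif_pos hi]
      exact (f ⟨i, hi⟩).2)
    refine ⟨⟨b, hb⟩, fun i => ?_⟩
    have h3 := hb2 i.1 i.2
    rw [dif_pos (show i.1 < l from i.2)] at h3
    exact h3
  have h2 : ∀ l < a, #(Iio l) < #(Iio a) := by
    intro l hl
    by_contra h
    have h3 : #(Iio l) = #(Iio a) :=
      le_antisymm (Cardinal.mk_le_mk_of_subset (Iio_subset_Iio hl.le)) (not_lt.1 h)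
    obtain ⟨e⟩ := Cardinal.eq.1 h3
    obtain ⟨b, hb⟩ := h1 l hl e
    have h4 := hb (e.symm b)
    rw [Equiv.apply_symm_apply] at h4
    exact lt_irrefl _ h4
  refine hδ' #(Iio a) ((le_max_left _ _).trans_lt hca) (mk_Iio_lt a)
    ⟨(le_max_right _ _).trans_lt hca, ?_, ?_⟩
  · have h3 : (#(Iio a)).ord = Ordinal.typein (α := κ.ord.ToType) (· < ·) a := by
      have h4 : (Ordinal.typein (α := κ.ord.ToType) (· < ·) a).card = #(Iio a) :=
        Ordinal.card_typein (r := (· < · : κ.ord.ToType → κ.ord.ToType → Prop)) a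
      refine le_antisymm ?_ ?_
      · rw [← h4]
        exact Cardinal.ord_card_le _
      · by_contra h5
        obtain ⟨l, hl⟩ := Ordinal.typein_surj (α := κ.ord.ToType) (· < ·)
          ((not_le.1 h5).trans (Ordinal.typein_lt_type _ _))
        have h6 : l < a := by
          rw [← Ordinal.typein_lt_typein (α := κ.ord.ToType) (· < ·), hl]
          exact not_le.1 h5
        have h7 := Ordinal.card_typein (r := (· < · : κ.ord.ToType → κ.ord.ToType → Prop)) l
        rw [hl, Cardinal.card_ord] at h7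
        exact absurd (h2 l h6) (not_lt.2 (le_of_eq h7))
    rw [h3, ← Order.cof_Iio]
    by_contra h4
    obtain ⟨S, hS, hS2⟩ := Order.exists_cof_eq (Iio a)
    have h5 : #S < #(Iio a) := by
      rw [hS2]
      exact not_le.1 h4
    obtain ⟨l, hl⟩ := exists_Iio (h5.trans (mk_Iio_lt a))
    obtain ⟨e⟩ := Cardinal.eq.1 hl
    obtain ⟨b, hb⟩ := h1 l (hlt l (hl ▸ h5)) fun i => (e i).1
    obtain ⟨s, hs, hbs⟩ := hS b
    have h6 := hb (e.symm ⟨s, hs⟩)
    rw [Equiv.apply_symm_apply] at h6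
    exact absurd h6 (not_lt.2 hbs)
  · intro x hx
    obtain ⟨l, hl⟩ := exists_Iio (hx.trans (mk_Iio_lt a))
    have h3 := (hcon l (hlt l (hl ▸ hx))).2
    rwa [hl] at h3

/-- words in the operations `op` act on `K` -/
def act {I K : Type u} (op : I → K → K) : List I → K → K
  | [], x => x
  | i :: w, x => op i (act op w x)

/-- for an inaccessible `κ` which is not a limit of inaccessibles there is an algebra of size `κ`
without a uniform `κ`-complete ultrafilter -/
theorem no_ultra (hκ : κ.IsInaccessible) {δ : Cardinal.{u}} (hδ : δ < κ)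
    (hδ' : ∀ c : Cardinal.{u}, δ < c → c < κ → ¬ c.IsInaccessible) :
    ∃ A : Set (Set κ.ord.ToType), IsCompleteAlgebra A ∧ (∀ x, {x} ∈ A) ∧
      #A = κ ∧ ∀ U, ¬ IsUniformUltrafilter A U := by
  classical
  have hreg := hκ.isRegular
  have hω := hreg.aleph0_le
  obtain ⟨d, hd⟩ := witness hκ hδ hδ'
  let P1 : κ.ord.ToType → κ.ord.ToType → (κ.ord.ToType → κ.ord.ToType) → Prop := fun a l c =>
    (∀ i < l, c i < a) ∧ ∀ b < a, ∃ i < l, b ≤ c i
  have hd' : ∀ a, ∃ (l : κ.ord.ToType) (c : κ.ord.ToType → κ.ord.ToType), d ≤ a →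
      l < a ∧ (P1 a l c ∨ #(Iio a) ≤ 2 ^ #(Iio l)) := by
    intro a
    by_cases h : d ≤ a
    · obtain ⟨l, hl, ⟨c, hc⟩ | h2⟩ := hd a h
      · exact ⟨l, c, fun _ => ⟨hl, Or.inl hc⟩⟩
      · exact ⟨l, id, fun _ => ⟨hl, Or.inr h2⟩⟩
    · exact ⟨a, id, fun h2 => absurd h2 h⟩
  choose l c hlc using hd'
  let op : Option κ.ord.ToType → κ.ord.ToType → κ.ord.ToType := fun o a =>
    o.elim (l a) fun i => c a i
  let F : List (Option κ.ord.ToType) → κ.ord.ToType → κ.ord.ToType := act op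
  let L := List (Option κ.ord.ToType)
  have hL : #L ≤ κ := by
    refine (Cardinal.mk_list_le_max _).trans (max_le hω ?_)
    rw [Cardinal.mk_option, mk_K, Cardinal.add_one_eq hω]
  let G0 : (L × L) ⊕ (L × κ.ord.ToType) ⊕ (L × κ.ord.ToType) ⊕ L → Set κ.ord.ToType := fun p =>
    match p with
    | Sum.inl (v, w) => {x | F v x < F w x}
    | Sum.inr (Sum.inl (v, b)) => {x | F v x = b}
    | Sum.inr (Sum.inr (Sum.inl (v, b))) => {x | b < F v x}
    | Sum.inr (Sum.inr (Sum.inr v)) => {x | P1 (F v x) (l (F v x)) (c (F v x))}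
  have hG0 : #((L × L) ⊕ (L × κ.ord.ToType) ⊕ (L × κ.ord.ToType) ⊕ L) ≤ #κ.ord.ToType := by
    simp only [Cardinal.mk_sum, Cardinal.mk_prod, lift_id, mk_K]
    have h1 : #L * #L ≤ κ := (mul_le_mul' hL hL).trans (Cardinal.mul_eq_self hω).le
    have h2 : #L * κ ≤ κ := (mul_le_mul' hL le_rfl).trans (Cardinal.mul_eq_self hω).le
    exact (add_le_add h1 ((add_le_add h2 ((add_le_add h2 hL).trans
      (Cardinal.add_eq_self hω).le)).trans (Cardinal.add_eq_self hω).le)).trans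
      (Cardinal.add_eq_self hω).le
  obtain ⟨j⟩ := hG0
  have hne : Nonempty ((L × L) ⊕ (L × κ.ord.ToType) ⊕ (L × κ.ord.ToType) ⊕ L) :=
    ⟨Sum.inl ([], [])⟩
  let G : κ.ord.ToType → Set κ.ord.ToType := fun i => G0 (Function.invFun j i)
  obtain ⟨A, hA, hGA, hAc⟩ := exists_algebra hκ G
  have hG : ∀ p, G0 p ∈ A := by
    intro p
    have h1 := hGA (j p)
    have h2 : G (j p) = G0 p := by
      show G0 (Function.invFun j (j p)) = G0 p
      rw [Function.leftInverse_invFun j.injective]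
    rwa [h2] at h1
  have hlt : ∀ v w, {x | F v x < F w x} ∈ A := fun v w => hG (Sum.inl (v, w))
  have heq : ∀ v b, {x | F v x = b} ∈ A := fun v b => hG (Sum.inr (Sum.inl (v, b)))
  have hgt : ∀ v b, {x | b < F v x} ∈ A := fun v b => hG (Sum.inr (Sum.inr (Sum.inl (v, b))))
  have hP : ∀ v, {x | P1 (F v x) (l (F v x)) (c (F v x))} ∈ A :=
    fun v => hG (Sum.inr (Sum.inr (Sum.inr v)))
  have hsing : ∀ x : κ.ord.ToType, {x} ∈ A := fun x => heq [] x
  refine ⟨A, hA, hsing, le_antisymm hAc ?_, ?_⟩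
  · have : Function.Injective (fun x : κ.ord.ToType => (⟨{x}, hsing x⟩ : A)) := by
      intro x y hxy
      have h1 : ({x} : Set κ.ord.ToType) = {y} := congrArg Subtype.val hxy
      exact Set.singleton_injective h1
    have h2 := Cardinal.mk_le_of_injective this
    rwa [mk_K] at h2
  intro U hU
  have hK2 : 2 < #κ.ord.ToType := by
    rw [mk_K]
    exact (Cardinal.natCast_lt_aleph0 (n := 2)).trans_le hω
  have hUne : ∀ s ∈ U, s.Nonempty := by
    intro s hs
    by_contra h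
    rw [not_nonempty_iff_eq_empty] at h
    rw [h] at hs
    exact hU.empty_notMem hK2 hs
  let Unb : L → Prop := fun v => ∀ b, {x | b < F v x} ∈ U
  have hUnb0 : Unb [] := by
    intro b
    rcases hU.mem_or_compl_mem _ (hgt [] b) with h | h
    · exact h
    · exfalso
      have h1 := hU.card_eq _ h
      have h2 : {x | b < F [] x}ᶜ ⊆ Iic b := by
        intro x hx
        have hx' : ¬ b < F [] x := hx
        exact not_lt.1 hx'
      have h3 := (Cardinal.mk_le_mk_of_subset h2).trans_lt (mk_Iic_lt hω b)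
      rw [h1, mk_K] at h3
      exact lt_irrefl _ h3
  have hconst : ∀ v, ¬ Unb v → ∃ b, {x | F v x = b} ∈ U := by
    intro v hv
    simp only [Unb, not_forall] at hv
    obtain ⟨b0, hb0⟩ := hv
    have h1 := (hU.mem_or_compl_mem _ (hgt v b0)).resolve_left hb0
    obtain ⟨b, hb⟩ := hU.exists_mem hK2 (ι := Iic b0) (by rw [mk_K]; exact mk_Iic_lt hω b0)
      (fun b => {x | F v x = b.1}) (fun b => heq v b.1) h1 (by
        intro x hx
        have hx' : ¬ b0 < F v x := hx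
        exact mem_iUnion.2 ⟨⟨F v x, not_lt.1 hx'⟩, rfl⟩)
    exact ⟨b.1, hb⟩
  obtain ⟨v, hv, hmin⟩ : ∃ v, Unb v ∧ ∀ w, {x | F w x < F v x} ∈ U → ¬ Unb w := by
    by_contra hcon
    push Not at hcon
    choose nx h1 h2 using hcon
    let s : ℕ → {v // Unb v} := fun n => Nat.rec ⟨[], hUnb0⟩ (fun _ v => ⟨nx v.1 v.2, h2 _ _⟩) n
    have hs : ∀ n, {x | F (s (n + 1)).1 x < F (s n).1 x} ∈ U := fun n => h1 _ _
    obtain ⟨x, hx⟩ := hUne _ (hU.iInter_mem (ι := ULift ℕ) (by
      rw [mk_K, Cardinal.mk_uLift, Cardinal.mk_nat, Cardinal.lift_aleph0]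
      exact hκ.aleph0_lt) (fun n => {x | F (s (n.down + 1)).1 x < F (s n.down).1 x})
      fun n => hs n.down)
    have hx' : ∀ n, F (s (n + 1)).1 x < F (s n).1 x := fun n => mem_iInter.1 hx ⟨n⟩
    obtain ⟨m, ⟨n, hn⟩, hm⟩ := WellFounded.has_min (wellFounded_lt (α := κ.ord.ToType))
      (range fun n => F (s n).1 x) ⟨_, 0, rfl⟩
    refine hm (F (s (n + 1)).1 x) ⟨n + 1, rfl⟩ ?_
    rw [← hn]
    exact hx' n
  have hdU : {x | d < F v x} ∈ U := hv d
  have hl1 : {x | F (none :: v) x < F v x} ∈ U :=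
    hU.superset _ hdU _ (hlt _ _) fun x hx => (hlc (F v x) (le_of_lt hx)).1
  obtain ⟨lam, hlam⟩ := hconst _ (hmin _ hl1)
  have hlam' : {x | l (F v x) = lam} ∈ U := hlam
  rcases hU.mem_or_compl_mem _ (hP v) with hE | hE
  · have hbase := hU.inter_mem hK2 (hU.inter_mem hK2 hdU hlam') hE
    have hi : ∀ i : Iio lam, ∃ b, {x | c (F v x) i.1 = b} ∈ U := by
      intro i
      have h1 : {x | F (some i.1 :: v) x < F v x} ∈ U := by
        refine hU.superset _ hbase _ (hlt _ _) ?_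
        rintro x ⟨⟨-, hx2⟩, hx3⟩
        have hx2' : l (F v x) = lam := hx2
        exact hx3.1 i.1 (by rw [hx2']; exact i.2)
      exact hconst _ (hmin _ h1)
    choose β hβ using hi
    have hI := hU.iInter_mem (ι := Iio lam) (by rw [mk_K]; exact mk_Iio_lt lam) _ hβ
    obtain ⟨b, hb⟩ := bounded hreg (range β) (Cardinal.mk_range_le.trans_lt (mk_Iio_lt lam))
    obtain ⟨x, ⟨⟨⟨hx1, hx2⟩, hx3⟩, hx4⟩, hx5⟩ := hUne _ (hU.inter_mem hK2
      (hU.inter_mem hK2 hbase hI) (hv b))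
    obtain ⟨i, hi1, hi2⟩ := hx3.2 b hx5
    have hx2' : l (F v x) = lam := hx2
    rw [hx2'] at hi1
    have h3 : c (F v x) i = β ⟨i, hi1⟩ := mem_iInter.1 hx4 ⟨i, hi1⟩
    rw [h3] at hi2
    exact absurd (hb _ ⟨_, rfl⟩) (not_lt.2 hi2)
  · obtain ⟨b, hb⟩ := exists_Iio (κ := κ) (c := Order.succ (2 ^ #(Iio lam)))
      (hκ.isSuccLimit.succ_lt (hκ.isStrongPrelimit (mk_Iio_lt lam)))
    obtain ⟨x, ⟨⟨hx1, hx2⟩, hx3⟩, hx4⟩ := hUne _ (hU.inter_mem hK2
      (hU.inter_mem hK2 (hU.inter_mem hK2 hdU hlam') hE) (hv b))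
    have hx2' : l (F v x) = lam := hx2
    have h1 := (hlc (F v x) (le_of_lt hx1)).2.resolve_left hx3
    rw [hx2'] at h1
    have hx4' : b < F v x := hx4
    have h2 := Cardinal.mk_le_mk_of_subset (Iio_subset_Iio hx4'.le)
    rw [hb] at h2
    exact absurd (h2.trans h1) (not_le.2 (Order.lt_succ _))

end

end Pool.Agent.Q305.Welch
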